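import Pool.Agent.Helper68.EP.St2

/-!
Project EP, module ECQ: all ridges of a class and one cell.
-/

set_option autoImplicit false

open MeasureTheory Set Filter Topology
open scoped ENNReal RealInnerProductSpace

namespace Pool.Agent.Helper98.EP

open Pool.Agent.Helper68.LM (Pl BB Bd Av HL ft fm DQ)
open Pool.Agent.Helper68.EP Pool.Agent.Helper20.RG
open Pool.Agent.Helper20.RL (RQ Rich BM Fml)

/-- the strip -/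
def St (s₂ c h g : ℝ) (a : ℤ) : Set Pl :=
  {x : Pl | g ≤ x 0 ∧ x 0 ≤ g + (2 : ℝ) ^ a ∧ |pr s₂ x - c| ≤ h}

theorem cell_sub (hLGR : Pool.Agent.Helper20.RL.StLGR) (s₂ : ℝ) (hs : |s₂| ≤ 1) (a a₂ w₂ : ℤ)
    (m : ℕ) (ham : a₂ = a + m) (y : Pl) :
    RQ s₂ a₂ w₂ y ⊆ ⋃ i ∈ Finset.range (2 ^ m),
      St s₂ (pr s₂ y) ((2 : ℝ) ^ w₂) ((⌊y 0 / (2 : ℝ) ^ a₂⌋ : ℝ) * (2 : ℝ) ^ a₂ + (i : ℝ) * (2 : ℝ) ^ a) a := by
  intro x hx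
  have h4 := hLGR.2.2.2.1 s₂ a₂ w₂ y x hs hx
  have hx1 : ⌊x 0 / (2 : ℝ) ^ a₂⌋ = ⌊y 0 / (2 : ℝ) ^ a₂⌋ := hx.1
  set n : ℤ := ⌊y 0 / (2 : ℝ) ^ a₂⌋ with hn
  have hp2 : (0 : ℝ) < (2 : ℝ) ^ a₂ := by positivity
  have hp : (0 : ℝ) < (2 : ℝ) ^ a := by positivity
  have e2 : (2 : ℝ) ^ a₂ = (2 : ℝ) ^ m * (2 : ℝ) ^ a := by
    rw [ham, zpow_add₀ (by norm_num), zpow_natCast, mul_comm]
  have h5 : (n : ℝ) * (2 : ℝ) ^ a₂ ≤ x 0 := by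
    have := Int.floor_le (x 0 / (2 : ℝ) ^ a₂)
    rw [hx1, le_div_iff₀ hp2] at this
    exact this
  have h6 : x 0 < ((n : ℝ) + 1) * (2 : ℝ) ^ a₂ := by
    have := Int.lt_floor_add_one (x 0 / (2 : ℝ) ^ a₂)
    rw [hx1, div_lt_iff₀ hp2] at this
    exact this
  have h7 : 0 ≤ (x 0 - (n : ℝ) * (2 : ℝ) ^ a₂) / (2 : ℝ) ^ a := by
    apply div_nonneg _ hp.le
    linarith
  have h8 : (x 0 - (n : ℝ) * (2 : ℝ) ^ a₂) / (2 : ℝ) ^ a < (2 : ℝ) ^ m := by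
    rw [div_lt_iff₀ hp, ← e2]
    linarith
  set i : ℕ := ⌊(x 0 - (n : ℝ) * (2 : ℝ) ^ a₂) / (2 : ℝ) ^ a⌋₊ with hi
  have h9 : i < 2 ^ m := by
    rw [hi, Nat.floor_lt h7]
    exact_mod_cast h8
  have h10 : (i : ℝ) ≤ (x 0 - (n : ℝ) * (2 : ℝ) ^ a₂) / (2 : ℝ) ^ a := Nat.floor_le h7
  have h11 : (x 0 - (n : ℝ) * (2 : ℝ) ^ a₂) / (2 : ℝ) ^ a < (i : ℝ) + 1 := Nat.lt_floor_add_one _
  rw [le_div_iff₀ hp] at h10
  rw [div_lt_iff₀ hp] at h11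
  refine mem_iUnion₂.2 ⟨i, Finset.mem_range.2 h9, ?_, ?_, ?_⟩
  · linarith
  · nlinarith
  · exact h4.2.1.le

theorem DD_pos (P : Par) (u : ℕ) : 0 < DD P u := by
  unfold DD
  positivity

theorem et_pos (P : Par) (u q : ℕ) : 0 < et P u q := by
  unfold et
  positivity

/-- ECQ. -/
theorem hECQ (hLGR : Pool.Agent.Helper20.RL.StLGR) (hEFB : StEFB) (hECR : StECR) : StECQ := by
  intro P Δ u₁ q κ a₂ w₂ s₂ θ E y hSy hOk hq hs₂ hE ha₂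
  classical
  obtain ⟨G, hG⟩ : ∃ G : ℕ, G = 2 ^ (q - 4) := ⟨_, rfl⟩
  have hGZ : ((2 : ℤ) ^ (q - 4)) = (G : ℤ) := by rw [hG]; push_cast; rfl
  have hG1 : 1 ≤ G := by rw [hG]; exact Nat.one_le_two_pow
  have h2G : (2 : ℕ) ^ (q - 3) = 2 * G := by
    rw [hG, show q - 3 = (q - 4) + 1 by omega, pow_succ, mul_comm]
  rw [hGZ] at ha₂
  set a : ℤ := κ - 12 * G with ha
  set b : ℤ := κ - 15 * G with hb
  set F : Set Pl := Fb E (DD P u₁) b with hF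
  set ϑ : ℝ := et P u₁ q * θ with hϑ
  have hθ : 0 < θ := hOk.th.1
  have hϑ0 : 0 < ϑ := mul_pos (et_pos P u₁ q) hθ
  have hD := DD_pos P u₁
  obtain ⟨m, hm⟩ : ∃ m : ℕ, a₂ = a + m := by
    obtain ⟨m, hm⟩ := Int.le.dest ha₂
    exact ⟨m, hm.symm⟩
  have hBM : BM F := (hEFB.1 E (DD P u₁) b).2.2 hE
  have hden : ∀ y : Pl, volume (F ∩ DQ b y) ≤ ENNReal.ofReal (DD P u₁ * (4 : ℝ) ^ b) :=
    fun y => hEFB.2.2.2.2 E (DD P u₁) b b y le_rfl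
  have hba : b ≤ a := by omega
  set n : ℤ := ⌊y 0 / (2 : ℝ) ^ a₂⌋ with hn
  set K : ℝ := 1100 * DD P u₁ / ϑ * ((2 : ℝ) ^ a * (2 : ℝ) ^ w₂) with hK
  have hK0 : 0 ≤ K := by positivity
  set J : Finset ℕ := (Finset.range (2 ^ u₁)).filter
    (fun j => (2 : ℝ) ^ (-((2 ^ (q - 3) : ℕ) : ℤ)) < |Δ.sl u₁ j - s₂|) with hJ
  have hone : ∀ j ∈ J, ∀ g : ℝ,
      volume (Rs F (Δ.sl u₁ j) a b ϑ ∩ St s₂ (pr s₂ y) ((2 : ℝ) ^ w₂) g a) ≤ ENNReal.ofReal K := by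
    intro j hj g
    obtain ⟨hj1, hj2⟩ := Finset.mem_filter.1 hj
    have hsl : |Δ.sl u₁ j| ≤ 1 := hSy.slope u₁ j hOk.u1 (Finset.mem_range.1 hj1)
    have halt : (2 : ℝ) ^ b ≤ |Δ.sl u₁ j - s₂| * (2 : ℝ) ^ a := by
      have e1 : (2 : ℝ) ^ (-((2 ^ (q - 3) : ℕ) : ℤ)) * (2 : ℝ) ^ a = (2 : ℝ) ^ (κ - 14 * G) := by
        rw [← zpow_add₀ (by norm_num), h2G]
        congr 1
        push_cast
        omega
      have e2 : (2 : ℝ) ^ b ≤ (2 : ℝ) ^ (κ - 14 * G) :=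
        zpow_le_zpow_right₀ (by norm_num) (by omega)
      calc (2 : ℝ) ^ b ≤ (2 : ℝ) ^ (κ - 14 * G) := e2
        _ = (2 : ℝ) ^ (-((2 ^ (q - 3) : ℕ) : ℤ)) * (2 : ℝ) ^ a := e1.symm
        _ ≤ _ := mul_le_mul_of_nonneg_right hj2.le (by positivity)
    exact hECR F (Δ.sl u₁ j) s₂ a b (DD P u₁) ϑ g (pr s₂ y) ((2 : ℝ) ^ w₂) hsl hs₂ hBM hba hD hϑ0
      hden (by positivity) (Or.inr halt)
  have hsub : Rg1 P Δ u₁ q κ s₂ θ E ∩ RQ s₂ a₂ w₂ y ⊆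
      ⋃ j ∈ J, ⋃ i ∈ Finset.range (2 ^ m), Rs F (Δ.sl u₁ j) a b ϑ ∩
        St s₂ (pr s₂ y) ((2 : ℝ) ^ w₂) ((n : ℝ) * (2 : ℝ) ^ a₂ + (i : ℝ) * (2 : ℝ) ^ a) a := by
    rintro z ⟨⟨j, hj, hj2, w, hw, hr⟩, hz⟩
    obtain ⟨i, hi, hzi⟩ := mem_iUnion₂.1 (cell_sub hLGR s₂ hs₂ a a₂ w₂ m hm y hz)
    rw [hGZ] at hw hr
    refine mem_iUnion₂.2 ⟨j, Finset.mem_filter.2 ⟨Finset.mem_range.2 hj, hj2⟩,
      mem_iUnion₂.2 ⟨i, hi, ⟨z, w, hw, hr, rfl, ?_⟩, hzi⟩⟩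
    rw [sub_self, abs_zero]
    positivity
  calc volume (Rg1 P Δ u₁ q κ s₂ θ E ∩ RQ s₂ a₂ w₂ y)
      ≤ volume (⋃ j ∈ J, ⋃ i ∈ Finset.range (2 ^ m), Rs F (Δ.sl u₁ j) a b ϑ ∩
        St s₂ (pr s₂ y) ((2 : ℝ) ^ w₂) ((n : ℝ) * (2 : ℝ) ^ a₂ + (i : ℝ) * (2 : ℝ) ^ a) a) :=
        measure_mono hsub
    _ ≤ ∑ j ∈ J, volume (⋃ i ∈ Finset.range (2 ^ m), Rs F (Δ.sl u₁ j) a b ϑ ∩
        St s₂ (pr s₂ y) ((2 : ℝ) ^ w₂) ((n : ℝ) * (2 : ℝ) ^ a₂ + (i : ℝ) * (2 : ℝ) ^ a) a) :=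
        measure_biUnion_finset_le _ _
    _ ≤ ∑ j ∈ J, ENNReal.ofReal (2 ^ m * K) := by
        refine Finset.sum_le_sum fun j hj => ?_
        calc volume (⋃ i ∈ Finset.range (2 ^ m), Rs F (Δ.sl u₁ j) a b ϑ ∩
              St s₂ (pr s₂ y) ((2 : ℝ) ^ w₂) ((n : ℝ) * (2 : ℝ) ^ a₂ + (i : ℝ) * (2 : ℝ) ^ a) a)
            ≤ ∑ i ∈ Finset.range (2 ^ m), volume (Rs F (Δ.sl u₁ j) a b ϑ ∩
              St s₂ (pr s₂ y) ((2 : ℝ) ^ w₂) ((n : ℝ) * (2 : ℝ) ^ a₂ + (i : ℝ) * (2 : ℝ) ^ a) a) :=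
              measure_biUnion_finset_le _ _
          _ ≤ ∑ _i ∈ Finset.range (2 ^ m), ENNReal.ofReal K :=
              Finset.sum_le_sum fun i _ => hone j hj _
          _ = ENNReal.ofReal (2 ^ m * K) := by
              rw [Finset.sum_const, Finset.card_range, nsmul_eq_mul,
                ENNReal.ofReal_mul (p := (2 : ℝ) ^ m) (by positivity)]
              congr 1
              rw [ENNReal.ofReal_pow (by norm_num)]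
              push_cast
              norm_num
    _ = (J.card : ℝ≥0∞) * ENNReal.ofReal (2 ^ m * K) := by
        rw [Finset.sum_const, nsmul_eq_mul]
    _ ≤ ENNReal.ofReal ((2 : ℝ) ^ u₁) * ENNReal.ofReal (2 ^ m * K) := by
        gcongr
        rw [ENNReal.ofReal_pow (by norm_num)]
        have h1 : J.card ≤ 2 ^ u₁ := by
          have := Finset.card_filter_le (Finset.range (2 ^ u₁))
            (fun j => (2 : ℝ) ^ (-((2 ^ (q - 3) : ℕ) : ℤ)) < |Δ.sl u₁ j - s₂|)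
          rwa [Finset.card_range] at this
        have h2 : ENNReal.ofReal 2 = ((2 : ℕ) : ℝ≥0∞) := by norm_num
        rw [h2]
        exact_mod_cast h1
    _ = ENNReal.ofReal (cq P u₁ q θ * (2 : ℝ) ^ (a₂ + w₂)) := by
        rw [← ENNReal.ofReal_mul (by positivity)]
        congr 1
        have e1 : (2 : ℝ) ^ (a₂ + w₂) = (2 : ℝ) ^ m * ((2 : ℝ) ^ a * (2 : ℝ) ^ w₂) := by
          rw [hm, zpow_add₀ (by norm_num), zpow_add₀ (by norm_num), zpow_natCast]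
          ring
        rw [e1, hK, cq, ← hϑ]
        ring

end Pool.Agent.Helper98.EP
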