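import Pool.Agent.Helper68.EP.St6

/-!
Project EP, module SY: the data of a curve.
-/

set_option autoImplicit false

open MeasureTheory Set Filter Topology
open scoped ENNReal RealInnerProductSpace

namespace Pool.Agent.Helper98.EP

open Pool.Agent.Helper68.LM (Pl BB Bd Av HL ft fm DQ)
open Pool.Agent.Helper68.EP Pool.Agent.Helper20.RG
open Pool.Agent.Helper20.RL (RQ Rich BM Fml)

theorem gmono {φ τ : ℝ → ℝ} (h : Graph φ τ) : Monotone τ := by
  intro t t' htt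
  rcases eq_or_lt_of_le htt with h1 | h1
  · rw [h1]
  · have h2 := h.2 t t' htt
    have h3 : τ t * (t' - t) ≤ τ t' * (t' - t) := h2.1.trans h2.2
    exact le_of_mul_le_mul_right h3 (by linarith)

theorem tmem (u j : ℕ) (hj : j < 2 ^ u) : 0 ≤ tm u j ∧ tm u j ≤ 1 := by
  unfold tm
  constructor
  · positivity
  · rw [div_le_one (by positivity)]
    have : (j : ℝ) + 1 ≤ 2 ^ u := by exact_mod_cast hj
    linarith

/-- the set of parameters -/
def TS (τ : ℝ → ℝ) (θ : ℝ) (i : ℕ) : Set ℝ :=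
  {t : ℝ | t ∈ Icc (0 : ℝ) 1 ∧ |τ t - θ| ≤ (2 : ℝ) ^ (-(i : ℤ))}

theorem TS_le_one (τ : ℝ → ℝ) (θ : ℝ) (i : ℕ) : volume (TS τ θ i) ≤ 1 := by
  have h1 : volume (TS τ θ i) ≤ volume (Icc (0 : ℝ) 1) := measure_mono fun t ht => ht.1
  rw [Real.volume_Icc] at h1
  simpa using h1

theorem TS_ne (τ : ℝ → ℝ) (θ : ℝ) (i : ℕ) : volume (TS τ θ i) ≠ ⊤ :=
  ne_top_of_le_ne_top ENNReal.one_ne_top (TS_le_one τ θ i)

theorem elt_eq (τ : ℝ → ℝ) (θ : ℝ) (i : ℕ) : elt τ θ i = (volume (TS τ θ i)).toReal := rfl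

theorem elt_nonneg (τ : ℝ → ℝ) (θ : ℝ) (i : ℕ) : 0 ≤ elt τ θ i := ENNReal.toReal_nonneg

theorem elt_le (τ : ℝ → ℝ) (θ θ' : ℝ) (i i' : ℕ) (h : TS τ θ i ⊆ TS τ θ' i') :
    elt τ θ i ≤ elt τ θ' i' :=
  ENNReal.toReal_mono (TS_ne τ θ' i') (measure_mono h)

theorem le_elt (τ : ℝ → ℝ) (θ : ℝ) (i : ℕ) (a b : ℝ) (hab : a ≤ b) (h : Icc a b ⊆ TS τ θ i) :
    b - a ≤ elt τ θ i := by
  have h1 := measure_mono (μ := volume) h
  rw [Real.volume_Icc] at h1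
  rw [elt_eq, ← ENNReal.ofReal_le_iff_le_toReal (TS_ne τ θ i)]
  exact h1

theorem q1_bound (P : Par) (u c0 : ℕ) (A A₁ p : ℝ) (hp : 1 < p) (hA : 0 < A) (hA₁ : 0 < A₁)
    (hAA : A₁ ^ p = A) (hPp : P.p = p) (hPc : P.c0 = c0) (hc0 : A + 2 ≤ (2 : ℝ) ^ c0) :
    KA A₁ p u ≤ 2 ^ q1 P u := by
  have hq : q1 P u = ⌈p * u⌉₊ + c0 := by unfold q1; rw [hPp, hPc]
  have hu0 : (0 : ℝ) ≤ u := by positivity
  have e1 : (A₁ * (2 : ℝ) ^ u) ^ p = A * (2 : ℝ) ^ (p * u) := by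
    rw [Real.mul_rpow hA₁.le (by positivity), hAA]
    congr 1
    rw [← Real.rpow_natCast, ← Real.rpow_mul (by norm_num), mul_comm]
  have h1 : (2 : ℝ) ^ (p * u) ≤ (2 : ℝ) ^ (⌈p * u⌉₊ : ℕ) := by
    rw [← Real.rpow_natCast]
    exact Real.rpow_le_rpow_of_exponent_le (by norm_num) (Nat.le_ceil _)
  have h2 : (u : ℝ) + 1 ≤ (2 : ℝ) ^ (⌈p * u⌉₊ : ℕ) := by
    have h3 : u + 1 ≤ 2 ^ u := Nat.lt_two_pow_self
    have h4 : u ≤ ⌈p * u⌉₊ := by
      have h5 : (u : ℝ) ≤ p * u := by nlinarith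
      have h6 := h5.trans (Nat.le_ceil (p * u))
      exact_mod_cast h6
    have h7 : u + 1 ≤ 2 ^ (⌈p * u⌉₊ : ℕ) := h3.trans (Nat.pow_le_pow_right (by norm_num) h4)
    exact_mod_cast h7
  have h8 : ((KA A₁ p u : ℕ) : ℝ) ≤ ((2 ^ q1 P u : ℕ) : ℝ) := by
    unfold KA
    rw [e1, hq]
    push_cast
    have h9 : (⌈A * (2 : ℝ) ^ (p * u)⌉₊ : ℝ) < A * (2 : ℝ) ^ (p * u) + 1 :=
      Nat.ceil_lt_add_one (by positivity)
    rw [pow_add]
    set X : ℝ := (2 : ℝ) ^ (⌈p * u⌉₊ : ℕ) with hX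
    have hX1 : 1 ≤ X := one_le_pow₀ (by norm_num)
    have h10 : A * (2 : ℝ) ^ (p * u) ≤ A * X := mul_le_mul_of_nonneg_left h1 hA.le
    have h11 : X * (A + 2) ≤ X * (2 : ℝ) ^ c0 := mul_le_mul_of_nonneg_left hc0 (by linarith)
    nlinarith
  exact_mod_cast h8

/-- SY. -/
theorem hSY (hMM : Pool.Agent.Helper20.RG.StMM) (hGPG : StGPG) : StSY := by
  classical
  intro φ τ A p hG hA hP hp
  obtain ⟨c0, hc0⟩ : ∃ c0 : ℕ, A + 2 ≤ (2 : ℝ) ^ c0 := by
    obtain ⟨c, hc⟩ := pow_unbounded_of_one_lt (A + 2) (by norm_num : (1 : ℝ) < 2)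
    exact ⟨c, hc.le⟩
  refine ⟨c0, fun P hPp hPA hPc => ?_⟩
  have hτ := gmono hG
  have hp0 : 0 < p := by linarith
  set A₁ : ℝ := A ^ (1 / p) with hA₁d
  have hA₁ : 0 < A₁ := Real.rpow_pos_of_pos hA _
  have hAA : A₁ ^ p = A := by
    rw [hA₁d, ← Real.rpow_mul hA.le, one_div_mul_cancel hp0.ne', Real.rpow_one]
  have hGap : Gap A₁ p τ := hGPG τ A p hA hp0 hP
  have hM := hMM φ τ A₁ p hG hGap hA₁ hp0
  constructor
  · intro u j _ _
    exact hG.1 _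
  · intro u j hu hj
    obtain ⟨-, -, -, -, h5, h6, -⟩ := hM u j hu hj
    exact ⟨h5, h6.trans (q1_bound P u c0 A A₁ p hp hA hA₁ hAA hPp hPc hc0)⟩
  · intro θ i
    refine ⟨elt_nonneg τ θ i, ?_⟩
    have := ENNReal.toReal_mono ENNReal.one_ne_top (TS_le_one τ θ i)
    rw [ENNReal.toReal_one] at this
    exact this
  · intro θ i
    refine elt_le τ θ θ (i + 1) i fun t ht => ⟨ht.1, ht.2.trans ?_⟩
    exact zpow_le_zpow_right₀ (by norm_num) (by push_cast; omega)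
  · intro θ θ' i hθ
    refine elt_le τ θ θ' (i + 1) i fun t ht => ⟨ht.1, ?_⟩
    have h1 := ht.2
    have h2 : |τ t - θ'| ≤ |τ t - θ| + |θ - θ'| := abs_sub_le _ _ _
    have h3 : (2 : ℝ) ^ (-(i : ℤ)) = (2 : ℝ) ^ (-((i : ℤ) + 1)) + (2 : ℝ) ^ (-((i : ℤ) + 1)) := by
      rw [← two_mul, ← zpow_one_add₀ (by norm_num)]
      congr 1
      ring
    have h4 : (2 : ℝ) ^ (-(((i + 1 : ℕ) : ℤ))) = (2 : ℝ) ^ (-((i : ℤ) + 1)) := by push_cast; rfl
    rw [h4] at h1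
    rw [h3]
    linarith
  · intro u θ i hu
    change ({j : ℕ | j < 2 ^ u ∧ |τ (tm u j) - θ| ≤ (2 : ℝ) ^ (-(i : ℤ))}.ncard : ℝ) ≤
      1 + (2 : ℝ) ^ u * elt τ θ i
    have hu0 : (0 : ℝ) < 2 ^ u := by positivity
    set F := (Finset.range (2 ^ u)).filter (fun j => |τ (tm u j) - θ| ≤ (2 : ℝ) ^ (-(i : ℤ))) with hF
    have h0 : {j : ℕ | j < 2 ^ u ∧ |τ (tm u j) - θ| ≤ (2 : ℝ) ^ (-(i : ℤ))} = ↑F := by
      ext j
      simp [hF]
    rw [h0, Set.ncard_coe_finset]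
    by_cases hne : F.Nonempty
    · have m1 := F.min'_mem hne
      have m2 := F.max'_mem hne
      set j₁ := F.min' hne with hj₁
      set j₂ := F.max' hne with hj₂
      have m1' := (Finset.mem_filter.1 m1)
      have m2' := (Finset.mem_filter.1 m2)
      have e12 : j₁ ≤ j₂ := F.min'_le j₂ m2
      have hsub : F ⊆ Finset.Icc j₁ j₂ := by
        intro j hj
        rw [Finset.mem_Icc]
        exact ⟨F.min'_le j hj, F.le_max' j hj⟩
      have hc : F.card ≤ j₂ - j₁ + 1 := by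
        refine (Finset.card_le_card hsub).trans ?_
        rw [Nat.card_Icc]
        omega
      have hc' : (F.card : ℝ) ≤ (j₂ : ℝ) - j₁ + 1 := by
        have : (F.card : ℝ) ≤ ((j₂ - j₁ + 1 : ℕ) : ℝ) := by exact_mod_cast hc
        rw [Nat.cast_add, Nat.cast_sub e12, Nat.cast_one] at this
        exact this
      have hle : tm u j₁ ≤ tm u j₂ := by
        unfold tm
        have : (j₁ : ℝ) ≤ j₂ := by exact_mod_cast e12
        gcongr
      have hI : Icc (tm u j₁) (tm u j₂) ⊆ TS τ θ i := by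
        intro t ht
        have b1 := tmem u j₁ (Finset.mem_range.1 m1'.1)
        have b2 := tmem u j₂ (Finset.mem_range.1 m2'.1)
        refine ⟨⟨b1.1.trans ht.1, ht.2.trans b2.2⟩, ?_⟩
        have c1 := hτ ht.1
        have c2 := hτ ht.2
        have a1 := abs_le.1 m1'.2
        have a2 := abs_le.1 m2'.2
        rw [abs_le]
        constructor <;> linarith
      have h2 := le_elt τ θ i _ _ hle hI
      have h3 : tm u j₂ - tm u j₁ = ((j₂ : ℝ) - j₁) / 2 ^ u := by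
        unfold tm
        ring
      rw [h3, div_le_iff₀ hu0] at h2
      linarith
    · rw [Finset.not_nonempty_iff_eq_empty] at hne
      rw [hne, Finset.card_empty, Nat.cast_zero]
      have := elt_nonneg τ θ i
      positivity
  · intro u j i hu hj hi
    change 1 ≤ (2 : ℝ) ^ u * elt τ (τ (tm u j)) i
    change i + u + 1 ≤ mm τ u j at hi
    obtain ⟨h1, -, h3, -, -, -, -⟩ := hM u j hu hj
    have hu0 : (0 : ℝ) < 2 ^ u := by positivity
    have hj' : (j : ℝ) + 1 ≤ 2 ^ u := by exact_mod_cast hj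
    have htrn : trn τ u j ≤ (2 : ℝ) ^ (-(i : ℤ)) := by
      have h4 : (2 : ℝ) ^ (i + u + 1) ≤ (2 : ℝ) ^ (mm τ u j) := pow_le_pow_right₀ (by norm_num) hi
      have h5 : (2 : ℝ) ^ (i + u + 1) * trn τ u j ≤ (2 : ℝ) ^ u :=
        (mul_le_mul_of_nonneg_right h4 h1.le).trans h3
      have h6 : (2 : ℝ) ^ (i + u + 1) = (2 : ℝ) ^ i * 2 ^ u * 2 := by rw [pow_succ, pow_add]
      rw [h6] at h5
      rw [zpow_neg, zpow_natCast, ← one_div, le_div_iff₀ (by positivity)]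
      have h7 : (trn τ u j * (2 : ℝ) ^ i) * 2 ^ u ≤ 1 * 2 ^ u := by
        have : 0 ≤ (2 : ℝ) ^ i * 2 ^ u * trn τ u j := by positivity
        nlinarith
      exact le_of_mul_le_mul_right h7 hu0
    have hI : Icc ((j : ℝ) / 2 ^ u) (((j : ℝ) + 1) / 2 ^ u) ⊆ TS τ (τ (tm u j)) i := by
      intro t ht
      have b0 : (0 : ℝ) ≤ (j : ℝ) / 2 ^ u := by positivity
      have b1 : ((j : ℝ) + 1) / 2 ^ u ≤ 1 := by rw [div_le_one hu0]; exact hj'
      refine ⟨⟨b0.trans ht.1, ht.2.trans b1⟩, ?_⟩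
      have c1 : max (0 : ℝ) (((j : ℝ) - 1) / 2 ^ u) ≤ (j : ℝ) / 2 ^ u :=
        max_le b0 (div_le_div_of_nonneg_right (by linarith) hu0.le)
      have c2 : ((j : ℝ) + 1) / 2 ^ u ≤ min 1 (((j : ℝ) + 2) / 2 ^ u) :=
        le_min b1 (div_le_div_of_nonneg_right (by linarith) hu0.le)
      have c3 : (j : ℝ) / 2 ^ u ≤ tm u j := by
        unfold tm
        exact div_le_div_of_nonneg_right (by linarith) hu0.le
      have c4 : tm u j ≤ ((j : ℝ) + 1) / 2 ^ u := by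
        unfold tm
        exact div_le_div_of_nonneg_right (by linarith) hu0.le
      have d1 := hτ (c1.trans ht.1)
      have d2 := hτ (ht.2.trans c2)
      have d3 := hτ (c1.trans c3)
      have d4 := hτ (c4.trans c2)
      refine le_trans ?_ htrn
      unfold trn
      rw [abs_le]
      constructor <;> linarith
    have h7 := le_elt τ (τ (tm u j)) i _ _ (div_le_div_of_nonneg_right (by linarith) hu0.le) hI
    have h8 : ((j : ℝ) + 1) / 2 ^ u - (j : ℝ) / 2 ^ u = 1 / 2 ^ u := by ring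
    rw [h8, div_le_iff₀ hu0] at h7
    linarith
  · intro θ n
    rw [hPp, hPA]
    exact hP θ n

end Pool.Agent.Helper98.EP
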